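import Pool.Agent.R685.LieSup3

set_option autoImplicit false

/-!
A solvable (index 3) variety of Malcev algebras, in fact of Lie algebras, that has no finite
basic superrank, over every field of characteristic `0`: the variety `V1` of all Lie algebras
whose third lower central power has zero product.
-/

namespace Pool.Agent.Results.MP_af1090_al.SolvableMalcevSuperrank

open Pool.Agent.H163R3 Pool.Agent.R685

universe u

/-- the Jacobian `J(x, y, z) = xy·z + yz·x + zx·y` -/
def Jc {B : Type u} [NonUnitalNonAssocRing B] (x y z : B) : B :=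
  (x * y) * z + (y * z) * x + (z * x) * y

/-- the defining identities of Malcev algebras: `x ∘ y = 0`, `J(x, y, z) x = J(x, y, xz)` -/
def Malc (F : Type u) [Field F] : Set (Fr F) :=
  {X F 0 * X F 1 + X F 1 * X F 0,
    Jc (X F 0) (X F 1) (X F 2) * X F 0 - Jc (X F 0) (X F 1) (X F 0 * X F 2)}

/-- the polynomial `s_n` in the variables with indices `k, k + 1, …, k + 2 ^ n - 1` -/
noncomputable def sPol (F : Type u) [Field F] : ℕ → ℕ → Fr F
  | 0, k => X F k
  | n + 1, k => sPol F n k * sPol F n (k + 2 ^ n)

theorem map_Jc {F : Type u} [Field F] {B B' : Type u} [NonUnitalNonAssocRing B] [Module F B]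
    [NonUnitalNonAssocRing B'] [Module F B'] (φ : B →ₙₐ[F] B') (x y z : B) :
    φ (Jc x y z) = Jc (φ x) (φ y) (φ z) := by
  simp [Jc]

theorem V1_malc (F : Type u) [Field F] (B : Type u) [NonUnitalNonAssocRing B] [Module F B]
    [IsScalarTower F B B] [SMulCommClass F B B] (h : InVar F (V1 F) B) :
    InVar F (Malc F) B := by
  have hsq : ∀ x : B, x * x = 0 := by
    intro x
    have := h _ (show X F 0 * X F 0 ∈ V1 F by unfold V1; simp)
      (FreeNonUnitalNonAssocAlgebra.lift F fun _ => x)
    simpa [X] using this
  have hac : ∀ x y : B, x * y + y * x = 0 := by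
    intro x y
    have h1 := hsq (x + y)
    rw [add_mul, mul_add, mul_add, hsq, hsq, zero_add, add_zero] at h1
    exact h1
  have hj : ∀ x y z : B, Jc x y z = 0 := by
    intro x y z
    have := h _ (show (X F 0 * X F 1) * X F 2 + (X F 1 * X F 2) * X F 0
      + (X F 2 * X F 0) * X F 1 ∈ V1 F by unfold V1; simp)
      (FreeNonUnitalNonAssocAlgebra.lift F fun i => if i = 0 then x else if i = 1 then y else z)
    simpa [X, Jc] using this
  intro f hf φ
  rcases hf with hf | hf
  · rw [hf]
    simp [hac]
  · rw [Set.mem_singleton_iff] at hf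
    rw [hf, map_sub, map_mul, map_Jc, map_Jc, hj, hj, zero_mul, sub_zero]

theorem V1_solv (F : Type u) [Field F] (B : Type u) [NonUnitalNonAssocRing B] [Module F B]
    [IsScalarTower F B B] [SMulCommClass F B B] (h : InVar F (V1 F) B) :
    Sat F B (sPol F 3 0) := by
  have hj : ∀ a b c a' b' c' : B, ((a * b) * c) * ((a' * b') * c') = 0 := by
    intro a b c a' b' c'
    have := h _ (show ((X F 0 * X F 1) * X F 2) * ((X F 3 * X F 4) * X F 5) ∈ V1 F by
      unfold V1; simp)
      (FreeNonUnitalNonAssocAlgebra.lift F fun i => if i = 0 then a else if i = 1 then b else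
        if i = 2 then c else if i = 3 then a' else if i = 4 then b' else c')
    simpa [X] using this
  intro φ
  simp only [sPol, map_mul]
  exact hj _ _ _ _ _ _

/-- The variety `V1` consists of Malcev algebras, it is solvable of index `3`, and it is not
generated by the Grassmann envelope of a finitely generated superalgebra, whether the Grassmann
algebra is taken with unit (`m = 0`) or without unit (`m = 1`); and the Grassmann algebra
exists. -/
theorem result (F : Type u) [Field F] [CharZero F] :
    (∀ (B : Type u) [NonUnitalNonAssocRing B] [Module F B] [IsScalarTower F B B]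
      [SMulCommClass F B B], InVar F (V1 F) B → InVar F (Malc F) B ∧ Sat F B (sPol F 3 0)) ∧
    (∃ (G : Type u) (_ : Ring G) (_ : Algebra F G) (e : ℕ → G), IsGrassmann F e) ∧
    ∀ (G : Type u) [Ring G] [Algebra F G] (e : ℕ → G), IsGrassmann F e →
      ∀ m : ℕ, ¬ FinSuperrank F e m (V1 F) :=
  ⟨fun B _ _ _ _ h => ⟨V1_malc F B h, V1_solv F B h⟩, exists_grassmann F,
    fun _ _ _ _ he m => not_finSuperrank he m⟩

end Pool.Agent.Results.MP_af1090_al.SolvableMalcevSuperrank
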